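import Pool.Agent.L0h45.LR.Stm

/-!
# EXA: integers in a class with at most one prime divisor (not small) outside the modulus
-/

set_option autoImplicit false

open Finset

namespace Pool.Agent.L0h95.LR

open Pool.Agent.L0h45.LR

theorem t_EXA : S_EXA := by
  classical
  intro m r N hm
  have hd0 : 0 < Int.gcd r m := Int.gcd_pos_of_ne_zero_right _ (by exact_mod_cast (by omega : m ≠ 0))
  obtain ⟨d, hd⟩ : ∃ d : ℕ, d = Int.gcd r m := ⟨_, rfl⟩
  have hdpos : 0 < d := by rw [hd]; exact hd0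
  obtain ⟨r', hr'⟩ : (d : ℤ) ∣ r := by rw [hd]; exact Int.gcd_dvd_left _ _
  obtain ⟨m', hm'⟩ : d ∣ m := by
    have : (d : ℤ) ∣ (m : ℤ) := by rw [hd]; exact Int.gcd_dvd_right _ _
    exact_mod_cast this
  have hm'0 : m' ≠ 0 := by
    rintro rfl
    simp at hm'
    omega
  have hco : IsCoprime r' (m' : ℤ) := by
    rw [Int.isCoprime_iff_gcd_eq_one]
    have h1 : Int.gcd r m = d * Int.gcd r' m' := by
      rw [hr', hm']
      push_cast
      rw [Int.gcd_mul_left]
      simp
    rw [← hd] at h1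
    have h2 : d * 1 = d * Int.gcd r' m' := by omega
    exact (Nat.eq_of_mul_eq_mul_left hdpos h2).symm
  obtain ⟨p, hp, hpp, hmod⟩ := Nat.forall_exists_prime_gt_and_zmodEq (max N.toNat 4) hm'0 hco
  have hpN : N ≤ p := by
    have h1 : N.toNat < p := lt_of_le_of_lt (le_max_left _ _) hp
    have := Int.self_le_toNat N
    omega
  have hp4 : 4 < p := lt_of_le_of_lt (le_max_right _ _) hp
  have hdz : (1 : ℤ) ≤ (d : ℤ) := by exact_mod_cast hdpos
  have hpz : (0 : ℤ) < (p : ℤ) := by exact_mod_cast hpp.pos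
  refine ⟨(d : ℤ) * p, ?_, ?_, ?_, ?_⟩
  · nlinarith
  · positivity
  · have h1 : (m' : ℤ) ∣ (p : ℤ) - r' := hmod.symm.dvd
    rw [hm', hr']
    push_cast
    rw [← mul_sub]
    exact mul_dvd_mul_left _ h1
  · have hnat : ((d : ℤ) * p).natAbs = d * p := by
      rw [Int.natAbs_mul, Int.natAbs_natCast, Int.natAbs_natCast]
    rw [hnat]
    have hsub : (d * p).primeFactors.filter (fun q : ℕ => ¬ q ∣ m) ⊆ {p} := by
      intro q hq
      rw [mem_filter, Nat.mem_primeFactors] at hq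
      obtain ⟨⟨hqp, hqd, -⟩, hqm⟩ := hq
      rw [mem_singleton]
      rcases (Nat.Prime.dvd_mul hqp).1 hqd with h | h
      · exact absurd (h.trans ⟨m', hm'⟩) hqm
      · exact (Nat.prime_dvd_prime_iff_eq hqp hpp).1 h
    calc ∑ q ∈ (d * p).primeFactors.filter (fun q : ℕ => ¬ q ∣ m), (1 / (q : ℝ))
        ≤ ∑ q ∈ {p}, (1 / (q : ℝ)) :=
          sum_le_sum_of_subset_of_nonneg hsub (fun _ _ _ => by positivity)
      _ = 1 / (p : ℝ) := sum_singleton _ _
      _ ≤ 1 / 4 := by
          apply one_div_le_one_div_of_le (by norm_num)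
          exact_mod_cast hp4.le

end Pool.Agent.L0h95.LR
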