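import Pool.Agent.L0h45.LR.Stm
import Pool.Agent.Helper919.NonRes

/-!
# EXS1: primes modulo which `- a` is not a square
-/

set_option autoImplicit false

open Finset
open scoped NumberTheorySymbols

namespace Pool.Agent.L0h95.LR

open Pool.Agent.L0h45.LR
open Pool.Agent.N922.PQ

theorem exists_u (a : ℕ) (ha : Odd a) (hns : ¬ IsSquare (a : ℤ)) :
    ∃ u : ℕ, Nat.Coprime u a ∧ jacobiSym u a = -1 := by
  have hcop : ∀ u : ℕ, jacobiSym u a = -1 → Nat.Coprime u a := by
    intro u hu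
    by_contra hc
    have : NeZero a := ⟨by rintro rfl; simp at ha⟩
    have h0 : jacobiSym (u : ℤ) a = 0 := by
      rw [jacobiSym.eq_zero_iff_not_coprime]
      rwa [Int.gcd_natCast_natCast]
    rw [h0] at hu
    norm_num at hu
  obtain ⟨d, hdo, hd⟩ := Pool.Agent.Helper919.exists_jacobi_neg_one (a : ℤ) hns
  have h4 : a % 4 = 1 ∨ a % 4 = 3 := by
    have := Nat.odd_iff.1 ha
    omega
  rcases h4 with h4 | h4
  · have h1 := jacobiSym.quadratic_reciprocity_one_mod_four h4 hdo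
    rw [hd] at h1
    exact ⟨d, hcop d h1.symm, h1.symm⟩
  · have ha1 : 1 ≤ a := by omega
    have h2 : jacobiSym ((a - 1 : ℕ) : ℤ) a = -1 := by
      have h3 : jacobiSym ((a - 1 : ℕ) : ℤ) a = jacobiSym (-1) a := by
        apply jacobiSym.mod_left'
        push_cast [Nat.cast_sub ha1]
        have : ((a : ℤ) - 1) = -1 + a := by ring
        rw [this, Int.add_emod_right]
      rw [h3, jacobiSym.at_neg_one ha, ZMod.χ₄_nat_three_mod_four h4]
    exact ⟨a - 1, hcop _ h2, h2⟩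

theorem t_EXS1 : S_EXS1 := by
  classical
  intro a ha0 hao hns T r
  obtain ⟨b, rfl⟩ : ∃ b : ℕ, a = b := ⟨a.toNat, (Int.toNat_of_nonneg ha0.le).symm⟩
  have hbo : Odd b := by exact_mod_cast hao
  have hb0 : 0 < b := by exact_mod_cast ha0
  obtain ⟨u, huc, hu⟩ := exists_u b hbo hns
  -- a class modulo 8 b
  have h8 : Nat.Coprime 8 b := by
    have : Nat.Coprime 2 b := by
      rw [Nat.coprime_two_left]
      exact hbo
    exact Nat.Coprime.pow_left 3 this
  obtain ⟨c, hc8, hcb⟩ := Nat.chineseRemainder h8 1 u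
  have hcc : Nat.Coprime c (8 * b) := by
    apply Nat.Coprime.mul_right
    · have h1 : Nat.gcd c 8 = Nat.gcd 1 8 := Nat.ModEq.gcd_eq hc8
      rw [Nat.Coprime, h1]
      norm_num
    · have h1 : Nat.gcd c b = Nat.gcd u b := Nat.ModEq.gcd_eq hcb
      rw [Nat.Coprime, h1]
      exact huc
  have hinf : {p : ℕ | p.Prime ∧ p ≡ c [MOD (8 * b)]}.Infinite :=
    Nat.infinite_setOfPred_prime_and_modEq (by omega) hcc
  -- remove the elements of T and the divisors of b
  have hfin : ({p : ℕ | (p : ℤ) ∈ T} ∪ {p : ℕ | p ≤ b}).Finite := by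
    apply Set.Finite.union
    · have : {p : ℕ | (p : ℤ) ∈ T} = (fun p : ℕ => (p : ℤ)) ⁻¹' (T : Set ℤ) := rfl
      rw [this]
      exact Set.Finite.preimage (Nat.cast_injective.injOn) T.finite_toSet
    · exact Set.finite_le_nat b
  obtain ⟨S0, hS0, hS0c⟩ := (hinf.sdiff hfin).exists_subset_card_eq r
  have hS : ∀ p ∈ S0, p.Prime ∧ p ≡ c [MOD (8 * b)] ∧ (p : ℤ) ∉ T ∧ b < p := by
    intro p hp
    have h1 := hS0 hp
    rw [Set.mem_sdiff, Set.mem_union] at h1
    obtain ⟨⟨h2, h3⟩, h4⟩ := h1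
    push Not at h4
    exact ⟨h2, h3, h4.1, not_le.1 h4.2⟩
  refine ⟨S0.image (fun p : ℕ => (p : ℤ)), ?_, ?_, ?_, ?_⟩
  · intro Q hQ
    rw [mem_image] at hQ
    obtain ⟨p, hp, rfl⟩ := hQ
    obtain ⟨hpp, hpc, hpT, hpb⟩ := hS p hp
    have := Fact.mk hpp
    have hp8 : p % 8 = 1 := by
      have h1 : p ≡ c [MOD 8] := hpc.of_mul_right b
      have h2 : p ≡ 1 [MOD 8] := h1.trans hc8
      exact h2
    have hpodd : Odd p := by
      rw [Nat.odd_iff]
      omega
    refine ⟨⟨by exact_mod_cast hpp.pos, Nat.prime_iff_prime_int.1 hpp⟩, by omega, ?_⟩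
    intro z hz
    have e1 : jacobiSym ((b : ℕ) : ℤ) p = -1 := by
      have h1 := jacobiSym.quadratic_reciprocity_one_mod_four' hbo (by omega : p % 4 = 1)
      rw [h1]
      have h2 : jacobiSym (p : ℤ) b = jacobiSym (u : ℤ) b := by
        apply jacobiSym.mod_left'
        have h3 : p ≡ c [MOD b] := hpc.of_mul_left 8
        have h4 : p ≡ u [MOD b] := h3.trans hcb
        exact_mod_cast h4
      rw [h2, hu]
    have e2 : jacobiSym (-1) p = 1 := by
      rw [jacobiSym.at_neg_one hpodd, ZMod.χ₄_nat_one_mod_four (by omega)]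
    have e3 : jacobiSym (-(b : ℤ)) p = -1 := by
      have : (-(b : ℤ)) = (-1) * (b : ℤ) := by ring
      rw [this, jacobiSym.mul_left, e1, e2]
      norm_num
    rw [← jacobiSym.legendreSym.to_jacobiSym, legendreSym.eq_neg_one_iff] at e3
    apply e3
    refine ⟨(z : ZMod p), ?_⟩
    have h5 : ((z ^ 2 + (b : ℤ) : ℤ) : ZMod p) = 0 := by
      rw [ZMod.intCast_zmod_eq_zero_iff_dvd]
      exact hz
    push_cast at h5 ⊢
    linear_combination -h5
  · rw [card_image_of_injective _ Nat.cast_injective, hS0c]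
  · rw [disjoint_left]
    intro Q hQ hQT
    rw [mem_image] at hQ
    obtain ⟨p, hp, rfl⟩ := hQ
    exact (hS p hp).2.2.1 hQT
  · intro Q hQ hdvd
    rw [mem_image] at hQ
    obtain ⟨p, hp, rfl⟩ := hQ
    have h1 : p ∣ b := by exact_mod_cast hdvd
    have h2 := Nat.le_of_dvd hb0 h1
    exact absurd (hS p hp).2.2.2 (not_lt.2 h2)

end Pool.Agent.L0h95.LR
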