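import Pool.Agent.L0h45.LR.Stm

/-!
# RHO: solutions of a quadratic congruence in an arithmetic progression
-/

set_option autoImplicit false

open Finset

namespace Pool.Agent.L0h95.LR

open Pool.Agent.L0h45.LR

theorem card_class (u : ℤ) (n q : ℕ) (hq : 1 ≤ q) (S : Finset ℤ) (hS : ∀ c ∈ S, u < c ∧ c ≤ u + n)
    (hc : ∀ c ∈ S, ∀ c' ∈ S, (q : ℤ) ∣ c - c') : S.card ≤ n / q + 1 := by
  rcases S.eq_empty_or_nonempty with h | h
  · simp [h]
  · obtain ⟨c0, hc0, hmin⟩ := S.exists_min_image (fun c => c) h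
    have h1 : S.card ≤ (range (n / q + 1)).card := by
      apply card_le_card_of_injOn (fun c => ((c - c0) / q).toNat)
      · intro c hc1
        rw [mem_coe] at hc1
        have h2 := hS c hc1
        have h3 := hS c0 hc0
        have h4 := hmin c hc1
        simp only [mem_coe, mem_range]
        have h5 : (c - c0) / q ≤ (n : ℤ) / q := Int.ediv_le_ediv (by omega) (by omega)
        have h6 : (0 : ℤ) ≤ (c - c0) / q := Int.ediv_nonneg (by simpa using h4) (by omega)
        have h7 : (((n / q : ℕ) : ℤ)) = (n : ℤ) / q := by push_cast; rfl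
        omega
      · intro c hc1 c' hc2 heq
        rw [mem_coe] at hc1 hc2
        obtain ⟨k, hk⟩ := hc c hc1 c0 hc0
        obtain ⟨k', hk'⟩ := hc c' hc2 c0 hc0
        have h4 := hmin c hc1
        have h4' := hmin c' hc2
        have hq' : (0 : ℤ) < q := by omega
        simp only at heq
        rw [hk, hk', Int.mul_ediv_cancel_left _ hq'.ne', Int.mul_ediv_cancel_left _ hq'.ne'] at heq
        have hk0 : 0 ≤ k := by
          by_contra hneg
          push Not at hneg
          nlinarith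
        have hk0' : 0 ≤ k' := by
          by_contra hneg
          push Not at hneg
          nlinarith
        have hkk : k = k' := by omega
        rw [hkk] at hk
        omega
    rwa [card_range] at h1

theorem card_res (h3 : Pool.Agent.L0h45.VL.S_V3) (g : ℕ) (a : ℤ) (hg : 1 ≤ g) (R : Finset ℤ)
    (hR : ∀ c ∈ R, 0 ≤ c ∧ c < g ∧ (g : ℤ) ∣ 3 * c ^ 2 + a) :
    (R.card : ℝ) ≤ 12 * tn g * √(g : ℝ) := by
  classical
  have hgz : (0 : ℤ) < g := by omega
  have hinj : R.card ≤ (R.image (fun c : ℤ => (3 * c) % (g : ℤ)) ×ˢ (Icc (0 : ℤ) 2)).card := by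
    apply card_le_card_of_injOn (fun c : ℤ => ((3 * c) % (g : ℤ), (3 * c) / (g : ℤ)))
    · intro c hc
      rw [mem_coe] at hc
      obtain ⟨h0, h1, -⟩ := hR c hc
      simp only [mem_coe, mem_product, mem_image, mem_Icc]
      refine ⟨⟨c, hc, rfl⟩, Int.ediv_nonneg (by omega) hgz.le, ?_⟩
      have : 3 * c / g < 3 := Int.ediv_lt_of_lt_mul hgz (by omega)
      omega
    · intro c _ c' _ heq
      rw [Prod.mk.injEq] at heq
      have e1 := Int.emod_add_mul_ediv (3 * c) g
      have e2 := Int.emod_add_mul_ediv (3 * c') g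
      rw [heq.1, heq.2] at e1
      omega
  rw [card_product] at hinj
  have hIcc : (Icc (0 : ℤ) 2).card = 3 := by decide
  rw [hIcc] at hinj
  have hgr : (1 : ℝ) ≤ (g : ℝ) := by exact_mod_cast hg
  have h4 := h3 g g (-3 * a) hg hgr (by linarith) (R.image (fun c : ℤ => (3 * c) % (g : ℤ))) (by
    intro c hc
    rw [mem_image] at hc
    obtain ⟨c1, hc1, rfl⟩ := hc
    obtain ⟨-, -, hd⟩ := hR c1 hc1
    constructor
    · have e1 : (g : ℤ) ∣ (3 * c1) % g - 3 * c1 := by
        rw [← dvd_neg]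
        have : -((3 * c1) % g - 3 * c1) = 3 * c1 - (3 * c1) % g := by ring
        rw [this]
        exact Int.dvd_self_sub_emod
      have e2 : ((3 * c1) % (g : ℤ)) ^ 2 - -3 * a =
          ((3 * c1) % g - 3 * c1) * ((3 * c1) % g + 3 * c1) + 3 * (3 * c1 ^ 2 + a) := by ring
      rw [e2]
      exact dvd_add (Dvd.dvd.mul_right e1 _) (Dvd.dvd.mul_left hd _)
    · have e1 := Int.emod_nonneg (3 * c1) hgz.ne'
      have e2 := Int.emod_lt_of_pos (3 * c1) hgz
      rw [abs_of_nonneg (by exact_mod_cast e1)]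
      exact_mod_cast e2.le)
  have hsq : (g : ℝ) / √(g : ℝ) = √(g : ℝ) := by
    rw [Real.div_sqrt]
  rw [hsq] at h4
  have h5 : (R.card : ℝ) ≤ ((R.image (fun c : ℤ => (3 * c) % (g : ℤ))).card : ℝ) * 3 := by
    exact_mod_cast hinj
  unfold tn
  nlinarith

theorem t_RHO (h3 : Pool.Agent.L0h45.VL.S_V3) : S_RHO := by
  classical
  intro g M a r u n hg hM hco
  have hgz : (0 : ℤ) < g := by omega
  have hMz : (0 : ℤ) < M := by omega
  obtain ⟨S, hS⟩ : ∃ S, S = (Ioc u (u + n)).filter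
    (fun c : ℤ => (M : ℤ) ∣ c - r ∧ (g : ℤ) ∣ 3 * c ^ 2 + a) := ⟨_, rfl⟩
  have hmem : ∀ c ∈ S, (u < c ∧ c ≤ u + n) ∧ (M : ℤ) ∣ c - r ∧ (g : ℤ) ∣ 3 * c ^ 2 + a := by
    intro c hc
    rw [hS, mem_filter, mem_Ioc] at hc
    exact hc
  have h1 : S.card ≤ (n / (g * M) + 1) * (S.image (fun c : ℤ => c % (g : ℤ))).card := by
    apply card_le_mul_card_image
    intro ρ _
    apply card_class u n (g * M) (Nat.mul_pos hg hM)
    · intro c hc
      rw [mem_filter] at hc
      exact (hmem c hc.1).1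
    · intro c hc c' hc'
      rw [mem_filter] at hc hc'
      have e1 : (M : ℤ) ∣ c - c' := by
        have := dvd_sub (hmem c hc.1).2.1 (hmem c' hc'.1).2.1
        have e : c - r - (c' - r) = c - c' := by ring
        rwa [e] at this
      have e2 : (g : ℤ) ∣ c - c' := by
        apply Int.ModEq.dvd
        exact hc'.2.trans hc.2.symm
      push_cast
      apply IsCoprime.mul_dvd _ e2 e1
      exact Nat.isCoprime_iff_coprime.2 hco
  have h2 := card_res h3 g a hg (S.image (fun c : ℤ => c % (g : ℤ))) (by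
    intro ρ hρ
    rw [mem_image] at hρ
    obtain ⟨c, hc, rfl⟩ := hρ
    refine ⟨Int.emod_nonneg _ hgz.ne', Int.emod_lt_of_pos _ hgz, ?_⟩
    have e1 : (g : ℤ) ∣ c - c % g := Int.dvd_self_sub_emod
    have e2 : 3 * (c % (g : ℤ)) ^ 2 + a = (3 * c ^ 2 + a) - (c - c % g) * (3 * (c + c % g)) := by ring
    rw [e2]
    exact dvd_sub (hmem c hc).2.2 (Dvd.dvd.mul_right e1 _))
  have h4 : (S.card : ℝ) ≤ ((n / (g * M) : ℕ) + 1 : ℝ) * ((S.image (fun c : ℤ => c % (g : ℤ))).card : ℝ) := by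
    exact_mod_cast h1
  have h5 : ((n / (g * M) : ℕ) : ℝ) ≤ (n : ℝ) / (g * M) := by
    have := @Nat.cast_div_le ℝ _ _ _ n (g * M)
    push_cast at this
    exact this
  rw [← hS]
  have hnn : (0 : ℝ) ≤ (n : ℝ) / (g * M) + 1 := by positivity
  calc (S.card : ℝ) ≤ ((n / (g * M) : ℕ) + 1 : ℝ) * ((S.image (fun c : ℤ => c % (g : ℤ))).card : ℝ) := h4
    _ ≤ ((n : ℝ) / (g * M) + 1) * (12 * tn g * √(g : ℝ)) := by
        apply mul_le_mul (by linarith) h2 (by positivity) hnn
    _ = 12 * tn g * √(g : ℝ) * ((n : ℝ) / (g * M) + 1) := by ring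

end Pool.Agent.L0h95.LR
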